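import Mathlib

set_option autoImplicit false

namespace Pool.Agent.Results.MP_caa0a9_co.Coxeter

open Finset Equiv
open scoped Classical symmDiff

variable {n : ℕ} (d : ℕ → Bool)

/-- the order of the fence: the cover between positions `k` and `k + 1` goes up iff `d k` -/
def le (i j : Fin n) : Prop :=
  (i ≤ j ∧ ∀ k, i ≤ k → k < j → d k = true) ∨ (j ≤ i ∧ ∀ k, j ≤ k → k < i → d k = false)

abbrev AC (n : ℕ) := {A : Finset (Fin n) // IsAntichain (le d) (A : Set (Fin n))}

noncomputable def tg (x : Fin n) (A : AC d n) : AC d n :=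
  if h : IsAntichain (le d) (↑(A.1 ∆ {x}) : Set (Fin n)) then ⟨_, h⟩ else A

theorem tg2 (x : Fin n) : Function.Involutive (tg d x) := fun A => by
  by_cases h : IsAntichain (le d) (↑(A.1 ∆ {x}) : Set (Fin n))
  · simp only [tg, dif_pos h, symmDiff_symmDiff_cancel_right, dif_pos A.2]
  · simp only [tg, dif_neg h]

/-- antichain toggle -/
noncomputable def τ (x : Fin n) : Perm (AC d n) := (tg2 d x).toPerm
/-- product of the toggles along a list -/
noncomputable def cox (l : List (Fin n)) : Perm (AC d n) := (l.map (τ d)).prod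

variable {α : Type} [Fintype α]

noncomputable def orb (w : Perm α) (A : α) : Finset α :=
  univ.filter (· ∈ MulAction.orbit (Subgroup.zpowers w) A)
def Mesic (w : Perm α) (f : α → ℝ) (c : ℝ) : Prop := ∀ A, (∑ B ∈ orb w A, f B) / #(orb w A) = c
def Orbo (w : Perm α) (f : α → ℝ) : Prop :=
  ∀ A B, #(orb w A) = #(orb w B) → ∑ C ∈ orb w A, f C = ∑ C ∈ orb w B, f C
noncomputable def χ (y : Fin n) (A : AC d n) : ℝ := if y ∈ A.1 then 1 else 0

theorem mo {w : Perm α} {A B : α} : B ∈ orb w A ↔ w.SameCycle A B := by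
  simp only [orb, mem_filter, mem_univ, true_and]
  exact ⟨fun ⟨⟨_, i, rfl⟩, h⟩ => ⟨i, h⟩, fun ⟨i, h⟩ => ⟨⟨_, i, rfl⟩, h⟩⟩

theorem oc (w φ : Perm α) (A : α) : orb (φ * w * φ⁻¹) (φ A) = (orb w A).map φ.toEmbedding := by
  ext B
  rw [mo, Perm.sameCycle_conj, mem_map_equiv, mo]
  simp [Perm.inv_def]

/-- conjugate, with equal sums over corresponding orbits -/
def E (w v : Perm (AC d n)) : Prop := ∃ φ : Perm (AC d n), v = φ * w * φ⁻¹ ∧
  ∀ y A, ∑ B ∈ orb w A, χ d y (φ B) = ∑ B ∈ orb w A, χ d y B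

variable {d}

theorem E.trans {u v w : Perm (AC d n)} : E d u v → E d v w → E d u w := by
  rintro ⟨φ, rfl, a⟩ ⟨ψ, rfl, b⟩
  refine ⟨ψ * φ, by group, fun y A => ?_⟩
  have := b y (φ A)
  rw [oc, sum_map, sum_map] at this
  exact this.trans (a y A)

theorem E.symm {u v : Perm (AC d n)} : E d u v → E d v u := by
  rintro ⟨φ, rfl, a⟩
  refine ⟨φ⁻¹, by group, fun y A => ?_⟩
  obtain ⟨A, rfl⟩ := φ.surjective A
  rw [oc, sum_map, sum_map]
  simpa using (a y A).symm

theorem so (w : Perm α) (f : α → ℝ) (A : α) : ∑ B ∈ orb w A, f (w B) = ∑ B ∈ orb w A, f B :=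
  sum_equiv w (by simp [mo]) (by simp)

theorem sx (X Y : Perm α) (f : α → ℝ) (h : (∀ B, f (X B) = f B) ∨ ∀ B, f (Y B) = f B) (A : α) :
    ∑ B ∈ orb (X * Y) A, f (Y B) = ∑ B ∈ orb (X * Y) A, f B := by
  rcases h with h | h
  · rw [← so (X * Y) f]; simp [h]
  · simp [h]

def adj (d : ℕ → Bool) (x y : Fin n) : Prop := x ≠ y ∧ (le d x y ∨ le d y x)

theorem as {x y : Fin n} (h : adj d x y) : adj d y x := ⟨h.1.symm, h.2.symm⟩

theorem ai (A : AC d n) {x y : Fin n} (a : x ∈ A.1) (b : y ∈ A.1) : ¬ adj d x y :=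
  fun h => h.2.elim (A.2 a b h.1) (A.2 b a h.1.symm)

theorem mt (x : Fin n) (A : AC d n) (y : Fin n) : y ∈ (τ d x A).1 ↔
    if y = x then x ∉ A.1 ∧ ∀ z ∈ A.1, ¬ adj d x z else y ∈ A.1 := by
  show y ∈ (tg d x A).1 ↔ _
  unfold tg
  by_cases k : x ∈ A.1
  · rw [dif_pos (A.2.subset fun z => by simp [mem_symmDiff]; grind)]
    simp [mem_symmDiff]; grind
  split_ifs with h e e
  · simp only [mem_symmDiff, e, k]
    simpa using fun z a b => b.2.elim (h (by simp [Set.mem_symmDiff, k])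
      (by simp [Set.mem_symmDiff, a, b.1.symm]) b.1) (h (by simp [Set.mem_symmDiff, a, b.1.symm])
      (by simp [Set.mem_symmDiff, k]) b.1.symm)
  · simp [mem_symmDiff, e]
  · simp only [e, k, false_iff, not_and]
    refine fun _ c => h fun p a q b r s => ?_
    simp [Set.mem_symmDiff] at a b
    have := c p; have := c q; have := @ai _ _ A p q
    grind [adj]
  · rfl

theorem cm {x y : Fin n} (h : ¬ adj d x y) : Commute (τ d x) (τ d y) := by
  ext A z
  have := mt x A; have := mt y A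
  have := @as n d
  simp only [Perm.mul_apply, mt]
  grind

theorem cp {t v a : Fin n} (h : adj d t v) (i : ∀ z, adj d t z → z = v ∨ adj d v z) (p : a ≠ t)
    (q : a ≠ v) (k : adj d a t ↔ adj d a v) : Commute (τ d t * τ d v * τ d t) (τ d a) := by
  ext A z
  have := @as n d
  have := @ai n d A
  have := h.1
  simp only [Perm.mul_apply, mt]
  grind

theorem cs {t v : Fin n} (h : adj d t v) (i : ∀ z, adj d t z → z = v ∨ adj d v z) (A : AC d n) :
    χ d t ((τ d t * τ d v * τ d t) A) + χ d v ((τ d t * τ d v * τ d t) A) = χ d t A + χ d v A := by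
  have := @as n d
  have := @ai n d A
  have := h.1
  simp only [χ, Perm.mul_apply, mt]
  grind

theorem cc (x : Fin n) (l : List (Fin n)) : cox d (x :: l) = τ d x * cox d l := by simp [cox]
theorem ca (l m : List (Fin n)) : cox d (l ++ m) = cox d l * cox d m := by simp [cox]

theorem fx {y : Fin n} : ∀ {l}, y ∉ l → ∀ A, χ d y (cox d l A) = χ d y A
  | [], _, _ => rfl
  | x :: l, h, A => by
    rw [List.mem_cons, not_or] at h
    rw [← fx h.2 A, cc]
    simp [χ, mt, h.1]

theorem cl {g : Perm (AC d n)} {l : List (Fin n)} (h : ∀ x ∈ l, Commute g (τ d x)) :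
    Commute g (cox d l) := Commute.list_prod_right _ _ (by simpa using h)

theorem sp (p : Fin n → Prop) : ∀ l : List (Fin n), (∀ a ∈ l, ∀ b ∈ l, p a → ¬ p b → ¬ adj d b a) →
    ∃ u w : List (Fin n), (∀ x ∈ u, x ∈ l ∧ p x) ∧ (∀ x ∈ w, x ∈ l ∧ ¬ p x) ∧ (u ++ w).Perm l ∧
      cox d l = cox d u * cox d w
  | [], _ => ⟨[], [], by simp, by simp, by simp, rfl⟩
  | x :: l, h => by
    obtain ⟨u, w, a, b, c, e⟩ := sp p l fun a s b t => h a (by simp [s]) b (by simp [t])
    by_cases k : p x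
    · exact ⟨x :: u, w, by grind, by grind, c.cons x, by rw [cc, cc, e, mul_assoc]⟩
    · have : Commute (τ d x) (cox d u) := cl fun y s => cm (by grind)
      exact ⟨u, x :: w, by grind, by grind, List.perm_middle.trans (c.cons x), by
        rw [cc, cc, e, ← mul_assoc, this.eq, mul_assoc]⟩

theorem exy (X Y : Perm (AC d n)) (h : ∀ y A, ∑ B ∈ orb (X * Y) A, χ d y (Y B) =
    ∑ B ∈ orb (X * Y) A, χ d y B) : E d (X * Y) (Y * X) := ⟨Y, by group, h⟩

theorem rot {l m : List (Fin n)} (h : (l ++ m).Nodup) : E d (cox d (l ++ m)) (cox d (m ++ l)) := by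
  rw [ca, ca]
  refine exy _ _ fun y => sx _ _ _ ?_
  by_cases k : y ∈ l
  exacts [.inr (fx (List.disjoint_of_nodup_append h k)), .inl (fx k)]

def cut (d : ℕ → Bool) (v : Fin n) : Prop := ∀ a z, a < v → v < z → ¬ adj d a z

theorem ad {a b : Fin n} (p : a < b) : adj d a b ↔ ∀ k : Fin n, a ≤ k → k < b → d k = d a := by
  refine ⟨by grind [adj, le], fun h => ⟨p.ne, ?_⟩⟩
  cases e : d a
  exacts [.inr (.inr ⟨p.le, e ▸ h⟩), .inl (.inl ⟨p.le, e ▸ h⟩)]

theorem f1 {a b c : Fin n} (p : a < b) (q : b < c) :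
    (adj d a c → adj d a b ∧ adj d b c) ∧ (adj d a b → adj d b c → adj d a c ∨ cut d b) := by
  obtain ⟨e, he⟩ : ∃ e : Fin n, e.val + 1 = b := ⟨⟨b - 1, by omega⟩, by simp; omega⟩
  rw [ad p, ad q, ad (p.trans q)]
  refine ⟨by grind, fun s t => ?_⟩
  have := s e (by omega) (by omega)
  by_cases k : d e = d b
  · left; grind
  · refine .inr fun x z i j r => k ?_
    rw [ad (i.trans j)] at r
    rw [r e (by omega) (by omega), r b i.le j]

theorem tw {t v : Fin n} {l : List (Fin n)} (h : adj d t v) (c : ¬ cut d t)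
    (k : (t :: v :: l).Nodup) : E d (cox d (t :: v :: l)) (cox d (v :: t :: l)) := by
  have := @as n d
  have f := @f1 n d
  let S : Fin n → Prop := fun z => cut d v ∧ (t < v ∧ v < z ∨ v < t ∧ z < v)
  have i : ∀ z, adj d t z → z = v ∨ adj d v z := by grind [adj]
  have j : ∀ a z, S z → ¬ S a → a ≠ v → ¬ adj d a z := by grind [cut]
  have m : ∀ a, ¬ S a → a ≠ t → a ≠ v → (adj d a t ↔ adj d a v) := by grind [adj]
  simp only [List.nodup_cons, List.mem_cons, not_or] at k
  have a : ∀ a ∈ l, a ≠ t ∧ a ≠ v := by grind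
  have t2 : τ d t * τ d t = 1 := Equiv.ext (tg2 d t)
  obtain ⟨ψ, e⟩ : ∃ ψ, ψ = τ d t * τ d v * τ d t := ⟨_, rfl⟩
  obtain ⟨u, w, hu, hw, -, f⟩ := sp S l fun x r y s p q => j _ _ p q (a y s).2
  have c1 : Commute (τ d t) (cox d u) := cl fun z s => cm (j _ _ (hu z s).2 (by grind) h.1)
  have c2 : Commute ψ (cox d w) := cl fun z s => by
    have := a z (hw z s).1
    exact e ▸ cp h i this.1 this.2 (m z (hw z s).2 this.1 this.2)
  have c3 : Commute (cox d u) (cox d w) := cl fun z s =>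
    (cl fun y r => cm (j _ _ (hu y r).2 (hw z s).2 (a z (hw z s).1).2)).symm
  have e1 : τ d t * τ d v = ψ * τ d t := by rw [e, mul_assoc _ _ (τ d t), t2, mul_one]
  have e2 : τ d v * τ d t = τ d t * ψ := by rw [e, ← mul_assoc, ← mul_assoc, t2, one_mul]
  rw [cc, cc, cc, cc, f, ← mul_assoc, ← mul_assoc (τ d v), e1, e2]
  have y1 : ∀ y, y ≠ t → (S y ∨ y = v) → ∀ B, χ d y ((τ d t * cox d w) B) = χ d y B :=
    fun y p q B => by rw [← cc, fx]; grind
  convert exy (ψ * cox d u) (τ d t * cox d w) fun y A => ?_ using 1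
  · rw [mul_assoc, mul_assoc, ← mul_assoc (τ d t), c1.eq, mul_assoc]
  · rw [mul_assoc, mul_assoc, c3.eq, ← mul_assoc ψ, c2.eq, mul_assoc]
  by_cases p : y = t
  · have a := sx (ψ * cox d u) (τ d t * cox d w) (fun B => χ d t B + χ d v B) (.inl fun B => by
      rw [Perm.mul_apply, e, cs h i, fx, fx] <;> grind) A
    simp only [y1 v h.1.symm (.inr rfl), sum_add_distrib, add_left_inj] at a
    exact p ▸ a
  by_cases q : S y ∨ y = v
  · exact sx _ _ _ (.inr (y1 y p q)) A
  · refine sx _ _ _ (.inl fun B => ?_) A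
    rw [e, show τ d t * τ d v * τ d t * _ = cox d (t :: v :: t :: u) by simp [cc, mul_assoc], fx]
    grind

theorem E.rfl {w : Perm (AC d n)} : E d w w := ⟨1, by simp, by simp⟩

theorem up {a b : Fin n} {p l : List (Fin n)} (k : (p ++ a :: b :: l).Nodup)
    (h : (a :: b :: (l ++ p)).Nodup → E d (cox d (a :: b :: (l ++ p))) (cox d (b :: a :: (l ++ p)))) :
    E d (cox d (p ++ a :: b :: l)) (cox d (p ++ b :: a :: l)) :=
  have k' : (a :: b :: l ++ p).Nodup := List.perm_append_comm.nodup k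
  (rot k).trans ((h k').trans (rot (l := b :: a :: l) ((List.Perm.swap _ _ _).nodup k')))

theorem s1 {a b : Fin n} {l : List (Fin n)} (h : ¬ adj d a b ∨ ¬ cut d a ∨ ¬ cut d b)
    (k : (a :: b :: l).Nodup) : E d (cox d (a :: b :: l)) (cox d (b :: a :: l)) := by
  by_cases j : adj d a b
  · rcases h.resolve_left (not_not.2 j) with h | h
    exacts [tw j h k, (tw (as j) h ((List.Perm.swap _ _ _).nodup k)).symm]
  · rw [cc, cc, cc, cc, ← mul_assoc, (cm j).eq, mul_assoc]; exact .rfl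

theorem mv {b : Fin n} {q : List (Fin n)} : ∀ m p : List (Fin n),
    (∀ z ∈ m, ¬ adj d b z ∨ ¬ cut d b ∨ ¬ cut d z) → (p ++ b :: (m ++ q)).Nodup →
    E d (cox d (p ++ b :: (m ++ q))) (cox d (p ++ m ++ b :: q))
  | [], p, _, _ => by simpa using E.rfl
  | z :: m, p, h, k => by
    have := mv m (p ++ [z]) (fun y r => h y (by simp [r])) (by
      simpa using ((List.Perm.swap _ _ _).append_left p).nodup k)
    simp only [List.append_assoc, List.cons_append, List.nil_append] at *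
    exact (up k (s1 (h z (by simp)))).trans this

theorem s2 {a b : Fin n} {l : List (Fin n)} (o : a < b) (k : (a :: b :: l).Nodup) :
    E d (cox d (a :: b :: l)) (cox d (b :: a :: l)) := by
  by_cases h : ¬ adj d a b ∨ ¬ cut d a ∨ ¬ cut d b
  · exact s1 h k
  simp only [not_or, not_not] at h
  have := @as n d
  have f := @f1 n d
  obtain ⟨u, w, hu, hw, r, e⟩ := sp (d := d) (b < ·) l (by grind [cut])
  have n1 : (a :: b :: (w ++ u)).Nodup :=
    (((List.perm_append_comm.trans r).cons b).cons a).nodup_iff.2 k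
  simp only [List.nodup_cons, List.mem_cons, not_or] at k
  have c : Commute (cox d u) (cox d w) := cl fun z s => (cl fun y r => cm (by grind [cut])).symm
  have c' : Commute (τ d a) (cox d u) := cl fun y r => cm (by grind [cut])
  have x := (mv (d := d) w [a] (fun z s => by grind [cut]) n1).trans
    (rot ((List.perm_middle.cons a).nodup_iff.2 n1))
  rw [cc, cc, cc, cc, e, ← mul_assoc (τ d a) (cox d u), c'.eq, c.eq]
  simpa [cc, ca, mul_assoc] using x

theorem main {l m : List (Fin n)} (h : l.Perm m) : ∀ p : List (Fin n), (p ++ l).Nodup →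
    E d (cox d (p ++ l)) (cox d (p ++ m)) := by
  induction h with
  | nil => exact fun _ _ => .rfl
  | cons x _ ih => exact fun p k => by simpa using ih (p ++ [x]) (by simpa using k)
  | swap x y l =>
    refine fun p k => up k fun k => ?_
    rcases lt_trichotomy x y with o | o | o
    exacts [(s2 o ((List.Perm.swap _ _ _).nodup k)).symm, o ▸ .rfl, s2 o k]
  | trans a _ i j => exact fun p k => (i p k).trans (j p ((a.append_left p).nodup k))

theorem one {w v : Perm (AC d n)} (h : E d w v) (s : Fin n → ℝ) :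
    (∀ c, Mesic w (fun A => ∑ y, s y * χ d y A) c → Mesic v (fun A => ∑ y, s y * χ d y A) c) ∧
    (Orbo w (fun A => ∑ y, s y * χ d y A) → Orbo v fun A => ∑ y, s y * χ d y A) := by
  obtain ⟨φ, rfl, a⟩ := h
  have : ∀ A, ∑ B ∈ orb (φ * w * φ⁻¹) (φ A), ∑ y, s y * χ d y B =
      ∑ B ∈ orb w A, ∑ y, s y * χ d y B := fun A => by
    rw [oc, sum_map, sum_comm, sum_comm (s := orb w A)]
    simp [← mul_sum, a]
  refine ⟨fun c h A => ?_, fun h A B => ?_⟩
  · obtain ⟨A, rfl⟩ := φ.surjective A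
    rw [this, oc, card_map, h]
  · obtain ⟨A, rfl⟩ := φ.surjective A
    obtain ⟨B, rfl⟩ := φ.surjective B
    rw [this, this, oc, oc, card_map, card_map]
    exact h A B

theorem result (n : ℕ) (d : ℕ → Bool) (l m : List (Fin n)) (hl : l.Nodup ∧ ∀ x, x ∈ l)
    (hm : m.Nodup ∧ ∀ x, x ∈ m) (s : Fin n → ℝ) :
    (∀ c, Mesic (cox d l) (fun A => ∑ y, s y * χ d y A) c ↔
      Mesic (cox d m) (fun A => ∑ y, s y * χ d y A) c) ∧
    (Orbo (cox d l) (fun A => ∑ y, s y * χ d y A) ↔
      Orbo (cox d m) fun A => ∑ y, s y * χ d y A) := by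
  have h : E d (cox d l) (cox d m) :=
    main ((List.perm_ext_iff_of_nodup hl.1 hm.1).2 (by simp [hl.2, hm.2])) [] hl.1
  exact ⟨fun c => ⟨(one h s).1 c, (one h.symm s).1 c⟩, (one h s).2, (one h.symm s).2⟩

end Pool.Agent.Results.MP_caa0a9_co.Coxeter
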